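import Mathlib
import Pool.Agent.R582.ZZ.Main

/-!
# MP_0646e5_lc: `𝔷 = 𝔠` after adding random reals to a model of `MA + ¬CH`
-/

namespace Pool.Agent.Results.MP_0646e5_lc.Continuum

open Cardinal Set MeasureTheory
open Pool.Agent.R582.Rand (MAlg coins)
open Pool.Agent.R582.ZZ

/-- (1) If Martin's axiom holds and `ℵ₁ < 𝔠`, `X` has at most `𝔠` elements (for example `ℵ₁`), `W` has
`ℵ₁` elements, and `C` is a well-ordered set with `𝔠` elements all of whose proper initial segments
have fewer than `𝔠` elements, then every condition of the measure algebra of `2 ^ X` forces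
`Hyp W C`. (2) There are such `W` and `C`. (3) In ZFC `Hyp W C` implies that `𝔷 = 𝔠` and `ℵ₁ < 𝔠`.
(4) More generally, if `κ = |K|` is less than the covering number of the meager ideal and less than
the bounding number, then forcing with any finite measure forces `Sel K`. (5) In ZFC, if `Sel K` and
`B` is a base of an infinite compact Hausdorff space such that `K` can be mapped onto `B × B`, then
there is an injective convergent sequence in the space. -/
theorem result :
    (MartinAxiom → ℵ_ 1 < (𝔠 : Cardinal.{0}) → ∀ X : Type, #X ≤ 𝔠 → ∀ (W C : Type) [LinearOrder C]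
      [WellFoundedLT C], #W = ℵ_ 1 → #C = 𝔠 → (∀ c : C, #(Iio c) < 𝔠) →
      ∀ p : MAlg (coins X), p ∈ HypN (MAlg (coins X)) W C) ∧
    (∃ (W C : Type) (_ : LinearOrder C), WellFoundedLT C ∧ #W = ℵ_ 1 ∧ #C = 𝔠 ∧
      ∀ c : C, #(Iio c) < 𝔠) ∧
    (∀ (W C : Type) [LinearOrder C], Hyp W C → zed = 𝔠 ∧ ℵ_ 1 < (𝔠 : Cardinal.{0})) ∧
    (∀ (Ω : Type) [MeasurableSpace Ω] (μ : Measure Ω) [IsFiniteMeasure μ] (K : Type) [LinearOrder K]
      [WellFoundedLT K], CovCat ((K ⊕ Finset (K × Bool)) × ℕ) → Bounded K →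
      ∀ p : MAlg μ, p ∈ SelN (MAlg μ) K) ∧
    (∀ K : Type, Sel K → ∀ (X : Type) [TopologicalSpace X] [CompactSpace X] [T2Space X] [Infinite X]
      (B : Set (Set X)), TopologicalSpace.IsTopologicalBasis B →
      (∃ g : K → B × B, Function.Surjective g) →
      ∃ (u : ℕ → X) (x : X), Function.Injective u ∧ Filter.Tendsto u Filter.atTop (nhds x)) := by
  refine ⟨fun hMA hCH X hX W C _ _ hW hC hCi p => hypN_forced hMA hX hW hC hCi hCH p, ?_,
    fun W C _ h => zed_eq h, fun Ω _ μ _ K _ _ h1 h2 p => selN_forced h1 h2 p, ?_⟩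
  · refine ⟨(ℵ_ 1 : Cardinal.{0}).ord.ToType, (𝔠 : Cardinal.{0}).ord.ToType, inferInstance,
      inferInstance, Cardinal.mk_ord_toType _, Cardinal.mk_ord_toType _, fun c => ?_⟩
    exact Cardinal.mk_Iio_ord_toType c
  · rintro K hK X _ _ _ _ B hB ⟨g, hg⟩
    classical
    refine exists_seq hK (fun k => if Disjoint (g k).1.1 (g k).2.1 then (g k).1.1 else ∅)
      (fun k => if Disjoint (g k).1.1 (g k).2.1 then (g k).2.1 else ∅) ?_ ?_ ?_ ?_
    · intro k
      split_ifs
      · exact hB.isOpen (g k).1.2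
      · exact isOpen_empty
    · intro k
      split_ifs
      · exact hB.isOpen (g k).2.2
      · exact isOpen_empty
    · intro k
      split_ifs with h
      · exact h
      · exact disjoint_bot_left
    · intro x y hxy
      obtain ⟨O, O', hO, hO', hxO, hyO', hd⟩ := t2_separation hxy
      obtain ⟨b, hb, hxb, hbO⟩ := hB.exists_subset_of_mem_open hxO hO
      obtain ⟨b', hb', hyb', hbO'⟩ := hB.exists_subset_of_mem_open hyO' hO'
      obtain ⟨k, hk⟩ := hg (⟨b, hb⟩, ⟨b', hb'⟩)
      have hdis : Disjoint b b' := hd.mono hbO hbO'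
      refine ⟨k, ?_, ?_⟩
      · simp only [hk, if_pos hdis]
        exact hxb
      · simp only [hk, if_pos hdis]
        exact hyb'

end Pool.Agent.Results.MP_0646e5_lc.Continuum
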